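import Pool.Agent.Run7.h453.ST.Zeta

/-! The law for a division. -/

set_option autoImplicit false
set_option linter.unusedSectionVars false

namespace Pool.Agent.Run7.h453.ST

open NumberField IntermediateField IsDedekindDomain Filter Topology Set
open Pool.Agent.K4H74 Pool.Agent.K4H74.ST
open Pool.Agent.Run7.h453.CX Pool.Agent.W187.UR
open scoped ArithmeticFunction.Moebius

variable {K L : Type} [Field K] [NumberField K] [Field L] [NumberField L] [Algebra K L]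
  [IsGalois K L]

open Classical in
theorem Nrm_pos {G : Type} [Group G] [Fintype G] (σ : G) : 0 < Nrm σ := by
  unfold Nrm
  rw [Finset.card_pos]
  exact ⟨1, by simp⟩

open Classical in
/-- **The law for a division.** -/
theorem div_law (σ : L ≃ₐ[K] L) {Z : ℕ → ℂ → ℂ}
    (hZ : ∀ d, d ∣ orderOf σ → (∀ s, MeromorphicAt (Z d) s) ∧ ∀ s : ℂ, 1 < s.re →
      Z d s = dedekindZeta (fixedField (Subgroup.zpowers (σ ^ d)) : IntermediateField K L) s)
    {γ : ℝ} (hγ : Real.pi / 2 < γ) :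
    ∃ C T₀ : ℝ, ∀ T ≥ T₀, ‖SS (fun g : L ≃ₐ[K] L => if Div σ g then 1 else 0) γ T -
      ((Nat.card {g : L ≃ₐ[K] L // Div σ g} : ℂ) / Nat.card (L ≃ₐ[K] L)) *
      (-((fixN σ : ℂ) - 1) * (Real.log T - Lam γ) + (orderOf σ : ℂ) / Nat.totient (orderOf σ) *
        ∑ d ∈ (orderOf σ).divisors, ((μ d : ℤ) : ℂ) / d *
          (Real.log (hRw (fixedField (Subgroup.zpowers (σ ^ d)) : IntermediateField K L)) -
            Real.pi * ((∑ᶠ x ∈ Ioc (0 : ℝ) 1, (meromorphicOrderAt (Z d) (x : ℂ)).untop₀ : ℤ) : ℝ) *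
              Complex.I))‖ ≤ C / T := by
  set n : ℕ := orderOf σ with hn
  have hn0 : 0 < n := orderOf_pos σ
  have hnc : (n : ℂ) ≠ 0 := by exact_mod_cast hn0.ne'
  have hN0 : (Nrm σ : ℂ) ≠ 0 := by exact_mod_cast (Nrm_pos σ).ne'
  have hφ : (Nat.totient n : ℂ) ≠ 0 := by exact_mod_cast (Nat.totient_pos.2 hn0).ne'
  have hG : (Nat.card (L ≃ₐ[K] L) : ℂ) ≠ 0 := by exact_mod_cast Nat.card_pos.ne'
  set F : ℕ → IntermediateField K L := fun d => fixedField (Subgroup.zpowers (σ ^ d)) with hF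
  set R : ℕ → ℂ := fun d => (Real.log (hRw (F d)) - Real.pi * ((∑ᶠ x ∈ Ioc (0 : ℝ) 1,
    (meromorphicOrderAt (Z d) (x : ℂ)).untop₀ : ℤ) : ℝ) * Complex.I : ℂ) with hR
  have hlaw : ∀ d ∈ n.divisors, ∃ C T₀ : ℝ, ∀ T ≥ T₀,
      ‖-SS (K := K) (perm (Subgroup.zpowers (σ ^ d))) γ T -
        (Units.rank (F d) * (Real.log T - Lam γ) - R d)‖ ≤ C / T := by
    intro d hd
    obtain ⟨h1, h2⟩ := hZ d (Nat.dvd_of_mem_divisors hd)
    have h3 := law_zeta (F d) h1 h2 hγ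
    rw [hF] at h3
    simp only [fixingSubgroup_fixedField] at h3
    exact h3
  choose! C T₀ hCT using hlaw
  have hcard : (Nat.card {g : L ≃ₐ[K] L // Div σ g} : ℂ) * Nrm σ =
      Nat.card (L ≃ₐ[K] L) * Nat.totient n := by
    have h1 := congrArg (Nat.cast (R := ℂ)) (card_div σ)
    push_cast at h1
    rw [← Nat.card_eq_fintype_card] at h1
    rw [← h1, Nat.card_eq_fintype_card, Fintype.card_subtype]
  refine ⟨(n : ℝ) / Nrm σ * ∑ d ∈ n.divisors, |((μ d : ℤ) : ℝ) / d| * C d,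
    max 1 (∑ d ∈ n.divisors, |T₀ d|), fun T hT => ?_⟩
  have hT1 : 1 ≤ T := (le_max_left _ _).trans hT
  have hT0 : 0 < T := by linarith
  have hTd : ∀ d ∈ n.divisors, T₀ d ≤ T := fun d hd =>
    (le_abs_self _).trans ((Finset.single_le_sum (f := fun d => |T₀ d|)
      (fun _ _ => abs_nonneg _) hd).trans ((le_max_right _ _).trans hT))
  -- linearity
  have hlin : ∑ d ∈ n.divisors, ((μ d : ℤ) : ℂ) / d * SS (K := K) (perm (Subgroup.zpowers (σ ^ d))) γ T =
      (Nrm σ : ℂ) / n * SS (fun g : L ≃ₐ[K] L => if Div σ g then 1 else 0) γ T := by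
    rw [← SS_lin _ (fun d => ((μ d : ℤ) : ℂ) / d) (fun d => perm (Subgroup.zpowers (σ ^ d))) γ hT0]
    have h1 := SS_lin (K := K) {()} (fun _ : Unit => (Nrm σ : ℂ) / n)
      (fun _ (g : L ≃ₐ[K] L) => if Div σ g then (1 : ℂ) else 0) γ hT0
    simp only [Finset.sum_singleton] at h1
    rw [← h1]
    congr 1
    funext g
    rw [artin σ g]
    split_ifs <;> simp [hn]
  have hw := weight σ
  rw [← hn] at hw
  -- the sum of the errors
  have hE : ‖∑ d ∈ n.divisors, ((μ d : ℤ) : ℂ) / d * (-SS (K := K) (perm (Subgroup.zpowers (σ ^ d))) γ T -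
        (Units.rank (F d) * (Real.log T - Lam γ) - R d))‖ ≤
      ∑ d ∈ n.divisors, |((μ d : ℤ) : ℝ) / d| * C d / T := by
    refine norm_sum_le_of_le _ fun d hd => ?_
    rw [norm_mul, mul_div_assoc]
    have h1 : ‖((μ d : ℤ) : ℂ) / d‖ = |((μ d : ℤ) : ℝ) / d| := by
      rw [norm_div, Complex.norm_intCast, Complex.norm_natCast, abs_div, Nat.abs_cast]
    rw [h1]
    exact mul_le_mul_of_nonneg_left (hCT d hd T (hTd d hd)) (abs_nonneg _)
  have hS : ∑ d ∈ n.divisors, ((μ d : ℤ) : ℂ) / d * (-SS (K := K) (perm (Subgroup.zpowers (σ ^ d))) γ T -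
        (Units.rank (F d) * (Real.log T - Lam γ) - R d)) =
      -((Nrm σ : ℂ) / n * SS (fun g : L ≃ₐ[K] L => if Div σ g then 1 else 0) γ T) -
        ((Nat.totient n : ℂ) / n * ((fixN σ : ℂ) - 1) * (Real.log T - Lam γ) -
          ∑ d ∈ n.divisors, ((μ d : ℤ) : ℂ) / d * R d) := by
    rw [← hlin, ← hw, Finset.sum_mul, ← Finset.sum_sub_distrib, ← Finset.sum_neg_distrib,
      ← Finset.sum_sub_distrib]
    refine Finset.sum_congr rfl fun d _ => ?_
    ring
  rw [hS] at hE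
  have hfin : SS (fun g : L ≃ₐ[K] L => if Div σ g then 1 else 0) γ T -
      ((Nat.card {g : L ≃ₐ[K] L // Div σ g} : ℂ) / Nat.card (L ≃ₐ[K] L)) *
      (-((fixN σ : ℂ) - 1) * (Real.log T - Lam γ) + (n : ℂ) / Nat.totient n *
        ∑ d ∈ n.divisors, ((μ d : ℤ) : ℂ) / d * R d) =
      -((n : ℂ) / Nrm σ) * (-((Nrm σ : ℂ) / n * SS (fun g : L ≃ₐ[K] L => if Div σ g then 1 else 0) γ T) -
        ((Nat.totient n : ℂ) / n * ((fixN σ : ℂ) - 1) * (Real.log T - Lam γ) -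
          ∑ d ∈ n.divisors, ((μ d : ℤ) : ℂ) / d * R d)) := by
    have h1 : (Nat.card {g : L ≃ₐ[K] L // Div σ g} : ℂ) / Nat.card (L ≃ₐ[K] L) =
        Nat.totient n / Nrm σ := by
      rw [div_eq_div_iff hG hN0, hcard]
      ring
    rw [h1]
    field_simp
    ring
  rw [hfin, norm_mul, norm_neg, norm_div, Complex.norm_natCast, Complex.norm_natCast]
  refine (mul_le_mul_of_nonneg_left hE (by positivity)).trans (le_of_eq ?_)
  rw [← Finset.sum_div]
  ring

end Pool.Agent.Run7.h453.ST
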