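import Pool.Agent.Run7.h453.ST.Grp

/-! The ranks of the unit groups of the intermediate fields and the fixed infinite places. -/

set_option autoImplicit false
set_option linter.unusedSectionVars false

namespace Pool.Agent.Run7.h453.ST

open NumberField IntermediateField
open scoped ArithmeticFunction.Moebius

variable {K L : Type} [Field K] [NumberField K] [Field L] [NumberField L] [Algebra K L]
  [IsGalois K L]

/-- the number of the infinite places of `L` fixed by `g` -/
noncomputable def fixN (g : L ≃ₐ[K] L) : ℕ :=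
  Nat.card (MulAction.fixedBy (InfinitePlace L) g)

theorem fixN_conj (x g : L ≃ₐ[K] L) : fixN (x⁻¹ * g * x) = fixN g := by
  unfold fixN
  refine Nat.card_congr (Equiv.subtypeEquiv (MulAction.toPerm x) fun w => ?_)
  simp only [MulAction.mem_fixedBy, MulAction.toPerm_apply]
  constructor
  · intro h
    have h1 := congrArg (fun z => x • z) h
    simp only [← mul_smul] at h1
    have h2 : x * (x⁻¹ * g * x) = g * x := by group
    rw [h2] at h1
    rw [← mul_smul]
    exact h1
  · intro h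
    rw [mul_smul, mul_smul, h, inv_smul_smul]

theorem fixN_zpowers {g h : L ≃ₐ[K] L} (e : Subgroup.zpowers g = Subgroup.zpowers h) :
    fixN g = fixN h := by
  have key : ∀ {a b : L ≃ₐ[K] L}, Subgroup.zpowers a = Subgroup.zpowers b →
      ∀ w : InfinitePlace L, a • w = w → b • w = w := by
    intro a b hab w hw
    have h1 : b ∈ Subgroup.zpowers a := by
      rw [hab]
      exact Subgroup.mem_zpowers _
    have h2 : Subgroup.zpowers a ≤ MulAction.stabilizer (L ≃ₐ[K] L) w := by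
      rw [Subgroup.zpowers_le]
      exact hw
    exact h2 h1
  unfold fixN
  refine Nat.card_congr (Equiv.subtypeEquiv (Equiv.refl _) fun w => ?_)
  exact ⟨fun h1 => key e w h1, fun h1 => key e.symm w h1⟩

theorem fixN_div {σ g : L ≃ₐ[K] L} (h : Div σ g) : fixN g = fixN σ := by
  obtain ⟨x, hx⟩ := h
  rw [← fixN_conj x g]
  exact fixN_zpowers hx

open Classical in
/-- Burnside -/
theorem burnside (F : IntermediateField K L) :
    ((Units.rank F : ℂ) + 1) * Nat.card F.fixingSubgroup =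
      ∑ g : L ≃ₐ[K] L, if g ∈ F.fixingSubgroup then (fixN g : ℂ) else 0 := by
  have h1 := MulAction.sum_card_fixedBy_eq_card_orbits_mul_card_group (L ≃ₐ[F] L) (InfinitePlace L)
  have h2 : Fintype.card (Quotient (MulAction.orbitRel (L ≃ₐ[F] L) (InfinitePlace L))) =
      Units.rank F + 1 := by
    rw [Fintype.card_congr (InfinitePlace.orbitRelEquiv (k := F) (K := L))]
    unfold Units.rank
    have : 0 < Fintype.card (InfinitePlace F) := Fintype.card_pos
    omega
  have h3 : Fintype.card (L ≃ₐ[F] L) = Nat.card F.fixingSubgroup := by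
    rw [Nat.card_congr (fixingSubgroupEquiv F).toEquiv, Nat.card_eq_fintype_card]
  rw [h2, h3] at h1
  have h4 : ∑ a : L ≃ₐ[F] L, Fintype.card (MulAction.fixedBy (InfinitePlace L) a) =
      ∑ g : L ≃ₐ[K] L, if g ∈ F.fixingSubgroup then fixN g else 0 := by
    rw [← Finset.sum_filter]
    refine Finset.sum_bij' (fun a _ => (a.restrictScalars K : L ≃ₐ[K] L))
      (fun g _ => if hg : g ∈ F.fixingSubgroup then (fixingSubgroupEquiv F ⟨g, hg⟩) else 1)
      ?_ ?_ ?_ ?_ ?_
    · intro a _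
      rw [Finset.mem_filter]
      exact ⟨Finset.mem_univ _, fun x => a.commutes x⟩
    · intro g _
      exact Finset.mem_univ _
    · intro a _
      have ha : (a.restrictScalars K : L ≃ₐ[K] L) ∈ F.fixingSubgroup := fun x => a.commutes x
      rw [dif_pos ha]
      ext x
      rfl
    · intro g hg
      rw [Finset.mem_filter] at hg
      rw [dif_pos hg.2]
      ext x
      rfl
    · intro a _
      unfold fixN
      rw [← Nat.card_eq_fintype_card]
      rfl
  rw [h4] at h1
  have h5 := congrArg (Nat.cast (R := ℂ)) h1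
  push_cast at h5
  rw [← h5]

open Classical in
theorem sum_perm (H : Subgroup (L ≃ₐ[K] L)) :
    ∑ g : L ≃ₐ[K] L, perm H g * (fixN g : ℂ) = (Nat.card (L ≃ₐ[K] L) : ℂ) * ((Nat.card H : ℂ)⁻¹ *
      ∑ g : L ≃ₐ[K] L, if g ∈ H then (fixN g : ℂ) else 0) := by
  unfold perm
  have h1 : ∀ g : L ≃ₐ[K] L, (Nat.card H : ℂ)⁻¹ *
      ((Finset.univ.filter fun x : L ≃ₐ[K] L => x⁻¹ * g * x ∈ H).card : ℂ) * (fixN g : ℂ) =
      (Nat.card H : ℂ)⁻¹ * ∑ x : L ≃ₐ[K] L, if x⁻¹ * g * x ∈ H then (fixN (x⁻¹ * g * x) : ℂ)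
        else 0 := by
    intro g
    rw [Finset.card_filter, Nat.cast_sum, mul_assoc, Finset.sum_mul]
    congr 1
    refine Finset.sum_congr rfl fun x _ => ?_
    split_ifs
    · rw [fixN_conj]
      simp
    · simp
  simp only [h1]
  rw [← Finset.mul_sum, Finset.sum_comm]
  have h2 : ∀ x : L ≃ₐ[K] L, (∑ g : L ≃ₐ[K] L, if x⁻¹ * g * x ∈ H then (fixN (x⁻¹ * g * x) : ℂ)
      else 0) = ∑ g : L ≃ₐ[K] L, if g ∈ H then (fixN g : ℂ) else 0 := by
    intro x
    rw [← Equiv.sum_comp (MulAut.conj x).toEquiv]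
    have h3 : ∀ y : L ≃ₐ[K] L, x⁻¹ * (MulAut.conj x).toEquiv y * x = y := by
      intro y
      show x⁻¹ * (x * y * x⁻¹) * x = y
      group
    simp only [h3]
  simp only [h2]
  rw [Finset.sum_const, nsmul_eq_mul, Finset.card_univ, ← Nat.card_eq_fintype_card]
  ring

open Classical in
theorem sum_perm_one (H : Subgroup (L ≃ₐ[K] L)) :
    ∑ g : L ≃ₐ[K] L, perm H g = (Nat.card (L ≃ₐ[K] L) : ℂ) := by
  unfold perm
  have h1 : ∀ g : L ≃ₐ[K] L, (Nat.card H : ℂ)⁻¹ *
      ((Finset.univ.filter fun x : L ≃ₐ[K] L => x⁻¹ * g * x ∈ H).card : ℂ) =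
      (Nat.card H : ℂ)⁻¹ * ∑ x : L ≃ₐ[K] L, if x⁻¹ * g * x ∈ H then (1 : ℂ) else 0 := by
    intro g
    rw [Finset.card_filter]
    push_cast
    rfl
  simp only [h1]
  rw [← Finset.mul_sum, Finset.sum_comm]
  have h2 : ∀ x : L ≃ₐ[K] L, (∑ g : L ≃ₐ[K] L, if x⁻¹ * g * x ∈ H then (1 : ℂ) else 0) =
      (Nat.card H : ℂ) := by
    intro x
    rw [← Equiv.sum_comp (MulAut.conj x).toEquiv]
    have h3 : ∀ y : L ≃ₐ[K] L, x⁻¹ * (MulAut.conj x).toEquiv y * x = y := by
      intro y
      show x⁻¹ * (x * y * x⁻¹) * x = y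
      group
    simp only [h3]
    rw [← Finset.sum_filter, Finset.sum_const, nsmul_eq_mul, mul_one]
    congr 1
    rw [← Fintype.card_subtype, Nat.card_eq_fintype_card]
  simp only [h2]
  rw [Finset.sum_const, nsmul_eq_mul, Finset.card_univ, ← Nat.card_eq_fintype_card]
  have : (Nat.card H : ℂ) ≠ 0 := by exact_mod_cast Nat.card_pos.ne'
  field_simp

open Classical in
/-- the rank of the units of an intermediate field -/
theorem rank_eq (F : IntermediateField K L) :
    (Units.rank F : ℂ) = (Nat.card (L ≃ₐ[K] L) : ℂ)⁻¹ *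
      ∑ g : L ≃ₐ[K] L, perm F.fixingSubgroup g * ((fixN g : ℂ) - 1) := by
  have hG : (Nat.card (L ≃ₐ[K] L) : ℂ) ≠ 0 := by exact_mod_cast Nat.card_pos.ne'
  have hH : (Nat.card F.fixingSubgroup : ℂ) ≠ 0 := by exact_mod_cast Nat.card_pos.ne'
  simp only [mul_sub, mul_one, Finset.sum_sub_distrib]
  rw [sum_perm, sum_perm_one, ← burnside]
  field_simp
  ring

open Classical in
/-- **the weight of a division** -/
theorem weight (σ : L ≃ₐ[K] L) :
    ∑ d ∈ (orderOf σ).divisors, ((μ d : ℤ) : ℂ) / d *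
      (Units.rank (fixedField (Subgroup.zpowers (σ ^ d)) : IntermediateField K L) : ℂ) =
      (Nat.totient (orderOf σ) : ℂ) / orderOf σ * ((fixN σ : ℂ) - 1) := by
  have hG : (Nat.card (L ≃ₐ[K] L) : ℂ) ≠ 0 := by exact_mod_cast Nat.card_pos.ne'
  have h1 : ∀ d ∈ (orderOf σ).divisors, ((μ d : ℤ) : ℂ) / d *
      (Units.rank (fixedField (Subgroup.zpowers (σ ^ d)) : IntermediateField K L) : ℂ) =
      (Nat.card (L ≃ₐ[K] L) : ℂ)⁻¹ * ∑ g : L ≃ₐ[K] L, (((μ d : ℤ) : ℂ) / d *
        perm (Subgroup.zpowers (σ ^ d)) g) * ((fixN g : ℂ) - 1) := by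
    intro d _
    rw [rank_eq, fixingSubgroup_fixedField, Finset.mul_sum, Finset.mul_sum, Finset.mul_sum]
    refine Finset.sum_congr rfl fun g _ => ?_
    ring
  rw [Finset.sum_congr rfl h1, ← Finset.mul_sum, Finset.sum_comm]
  simp only [← Finset.sum_mul, artin]
  have h2 : ∀ g : L ≃ₐ[K] L, (if Div σ g then (Nrm σ : ℂ) / orderOf σ else 0) *
      ((fixN g : ℂ) - 1) = (if Div σ g then (Nrm σ : ℂ) / orderOf σ * ((fixN σ : ℂ) - 1) else 0) := by
    intro g
    split_ifs with h
    · rw [fixN_div h]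
    · rw [zero_mul]
  simp only [h2]
  rw [← Finset.sum_filter, Finset.sum_const, nsmul_eq_mul]
  have h3 := congrArg (Nat.cast (R := ℂ)) (card_div σ)
  push_cast at h3
  rw [← Nat.card_eq_fintype_card] at h3
  have hn : (orderOf σ : ℂ) ≠ 0 := by exact_mod_cast (orderOf_pos σ).ne'
  rw [eq_comm]
  field_simp
  linear_combination -((fixN σ : ℂ) - 1) * h3

end Pool.Agent.Run7.h453.ST
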