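import Mathlib

/-! Artin induction for the division of an element of a finite group. -/

set_option autoImplicit false
set_option linter.unusedSectionVars false

namespace Pool.Agent.Run7.h453.ST

open scoped ArithmeticFunction.Moebius

variable {G : Type} [Group G]

/-- `g` generates a conjugate of the group generated by `σ` -/
def Div (σ g : G) : Prop := ∃ x : G, Subgroup.zpowers (x⁻¹ * g * x) = Subgroup.zpowers σ

theorem zpowers_conj (x g : G) (H : Subgroup G) (h : Subgroup.zpowers g = H) :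
    Subgroup.zpowers (x⁻¹ * g * x) = H.map (MulAut.conj x⁻¹).toMonoidHom := by
  rw [← h, MonoidHom.map_zpowers]
  congr 1
  simp

theorem conj_iff (x σ τ : G) (h : Subgroup.zpowers σ = Subgroup.zpowers τ) :
    Subgroup.zpowers (x⁻¹ * σ * x) = Subgroup.zpowers (x⁻¹ * τ * x) := by
  rw [zpowers_conj x σ _ h, zpowers_conj x τ _ rfl]

variable [Fintype G]

open Classical in
/-- the number of the `x` with `⟨x⁻¹ σ x⟩ = ⟨σ⟩` -/
noncomputable def Nrm (σ : G) : ℕ :=
  (Finset.univ.filter fun x : G => Subgroup.zpowers (x⁻¹ * σ * x) = Subgroup.zpowers σ).card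

open Classical in
theorem count_div {σ g : G} (h : Div σ g) :
    (Finset.univ.filter fun x : G => Subgroup.zpowers (x⁻¹ * g * x) = Subgroup.zpowers σ).card =
      Nrm σ := by
  obtain ⟨x₀, hx₀⟩ := h
  unfold Nrm
  refine Finset.card_bij' (fun x _ => x₀⁻¹ * x) (fun x _ => x₀ * x) ?_ ?_ ?_ ?_
  · intro x hx
    rw [Finset.mem_filter] at hx ⊢
    refine ⟨Finset.mem_univ _, ?_⟩
    have h1 := conj_iff (x₀⁻¹ * x) _ _ hx₀
    rw [← h1]
    have h2 : (x₀⁻¹ * x)⁻¹ * (x₀⁻¹ * g * x₀) * (x₀⁻¹ * x) = x⁻¹ * g * x := by group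
    rw [h2]
    exact hx.2
  · intro x hx
    rw [Finset.mem_filter] at hx ⊢
    refine ⟨Finset.mem_univ _, ?_⟩
    have h1 := conj_iff x _ _ hx₀
    rw [hx.2] at h1
    have h2 : x⁻¹ * (x₀⁻¹ * g * x₀) * x = (x₀ * x)⁻¹ * g * (x₀ * x) := by group
    rw [h2] at h1
    exact h1
  · intro x _
    group
  · intro x _
    group

open Classical in
theorem count_not {σ g : G} (h : ¬ Div σ g) :
    (Finset.univ.filter fun x : G => Subgroup.zpowers (x⁻¹ * g * x) = Subgroup.zpowers σ).card =
      0 := by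
  rw [Finset.card_eq_zero, Finset.filter_eq_empty_iff]
  intro x _ hx
  exact h ⟨x, hx⟩

theorem mem_pow_iff {σ : G} {d k : ℕ} (hd : d ∣ orderOf σ) :
    σ ^ k ∈ Subgroup.zpowers (σ ^ d) ↔ d ∣ k := by
  constructor
  · intro h
    rw [Subgroup.mem_zpowers_iff] at h
    obtain ⟨j, hj⟩ := h
    have h1 : σ ^ ((d : ℤ) * j - k) = 1 := by
      rw [zpow_sub, zpow_mul, zpow_natCast, zpow_natCast, hj, mul_inv_cancel]
    have h2 : (orderOf σ : ℤ) ∣ (d : ℤ) * j - k := orderOf_dvd_iff_zpow_eq_one.2 h1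
    have h3 : (d : ℤ) ∣ (d : ℤ) * j - k := (Int.natCast_dvd_natCast.2 hd).trans h2
    have h4 : (d : ℤ) ∣ k := by
      have := dvd_sub (Dvd.intro j rfl : (d : ℤ) ∣ (d : ℤ) * j) h3
      simpa using this
    exact Int.natCast_dvd_natCast.1 h4
  · rintro ⟨j, rfl⟩
    rw [pow_mul]
    exact Subgroup.pow_mem _ (Subgroup.mem_zpowers _) _

theorem mu_sum (m : ℕ) : (∑ d ∈ m.divisors, (μ d : ℤ)) = if m = 1 then 1 else 0 := by
  have h1 := ArithmeticFunction.coe_mul_zeta_apply (f := μ) (x := m)
  rw [← h1, ArithmeticFunction.moebius_mul_coe_zeta, ArithmeticFunction.one_apply]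

theorem gcd_iff (σ : G) (k : ℕ) :
    Nat.gcd (orderOf σ) k = 1 ↔ Subgroup.zpowers (σ ^ k) = Subgroup.zpowers σ := by
  have hn : 0 < orderOf σ := orderOf_pos σ
  constructor
  · intro h
    refine Subgroup.eq_of_le_of_card_ge ?_ ?_
    · rw [Subgroup.zpowers_le]
      exact Subgroup.pow_mem _ (Subgroup.mem_zpowers _) _
    · rw [Nat.card_zpowers, Nat.card_zpowers, orderOf_pow, h, Nat.div_one]
  · intro h
    have h1 := congrArg (fun H : Subgroup G => Nat.card H) h
    simp only [Nat.card_zpowers, orderOf_pow] at h1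
    have h2 := Nat.gcd_dvd_left (orderOf σ) k
    have h3 := Nat.div_mul_cancel h2
    rw [h1] at h3
    exact Nat.eq_of_mul_eq_mul_left hn (by rw [h3, mul_one])

open Classical in
/-- the Moebius sum -/
theorem moebius_sum (σ y : G) :
    (∑ d ∈ (orderOf σ).divisors, if y ∈ Subgroup.zpowers (σ ^ d) then (μ d : ℤ) else 0) =
      if Subgroup.zpowers y = Subgroup.zpowers σ then 1 else 0 := by
  have hn : 0 < orderOf σ := orderOf_pos σ
  by_cases hy : y ∈ Subgroup.zpowers σ
  · rw [mem_zpowers_iff_mem_range_orderOf, Finset.mem_image] at hy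
    obtain ⟨k, hk, rfl⟩ := hy
    have h1 : ∀ d ∈ (orderOf σ).divisors, (if σ ^ k ∈ Subgroup.zpowers (σ ^ d) then (μ d : ℤ) else 0) =
        if d ∣ k then (μ d : ℤ) else 0 := by
      intro d hd
      simp only [mem_pow_iff (Nat.dvd_of_mem_divisors hd)]
    rw [Finset.sum_congr rfl h1, ← Finset.sum_filter]
    have h2 : (orderOf σ).divisors.filter (fun d => d ∣ k) = (Nat.gcd (orderOf σ) k).divisors := by
      ext d
      rw [Finset.mem_filter, Nat.mem_divisors, Nat.mem_divisors, Nat.dvd_gcd_iff]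
      constructor
      · rintro ⟨⟨h3, _⟩, h4⟩
        exact ⟨⟨h3, h4⟩, (Nat.gcd_pos_of_pos_left _ hn).ne'⟩
      · rintro ⟨⟨h3, h4⟩, _⟩
        exact ⟨⟨h3, hn.ne'⟩, h4⟩
    rw [h2, mu_sum]
    simp only [gcd_iff]
  · rw [if_neg, Finset.sum_eq_zero]
    · intro d _
      rw [if_neg]
      intro h
      apply hy
      have : Subgroup.zpowers (σ ^ d) ≤ Subgroup.zpowers σ := by
        rw [Subgroup.zpowers_le]
        exact Subgroup.pow_mem _ (Subgroup.mem_zpowers _) _
      exact this h
    · intro h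
      apply hy
      rw [← h]
      exact Subgroup.mem_zpowers _

open Classical in
/-- the permutation character of `G / H` -/
noncomputable def perm (H : Subgroup G) (g : G) : ℂ :=
  (Nat.card H : ℂ)⁻¹ * ((Finset.univ.filter fun x : G => x⁻¹ * g * x ∈ H).card : ℂ)

open Classical in
/-- **Artin induction for one division** -/
theorem artin (σ g : G) :
    ∑ d ∈ (orderOf σ).divisors, ((μ d : ℤ) : ℂ) / d * perm (Subgroup.zpowers (σ ^ d)) g =
      if Div σ g then (Nrm σ : ℂ) / orderOf σ else 0 := by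
  have hn : 0 < orderOf σ := orderOf_pos σ
  have hnc : (orderOf σ : ℂ) ≠ 0 := by exact_mod_cast hn.ne'
  have h1 : ∀ d ∈ (orderOf σ).divisors, ((μ d : ℤ) : ℂ) / d * perm (Subgroup.zpowers (σ ^ d)) g =
      (orderOf σ : ℂ)⁻¹ * ∑ x : G, (if x⁻¹ * g * x ∈ Subgroup.zpowers (σ ^ d) then ((μ d : ℤ) : ℂ)
        else 0) := by
    intro d hd
    have hd' := Nat.dvd_of_mem_divisors hd
    have hd0 : (d : ℂ) ≠ 0 := by exact_mod_cast (Nat.pos_of_mem_divisors hd).ne'
    unfold perm
    rw [Nat.card_zpowers, orderOf_pow, Nat.gcd_eq_right hd', Nat.cast_div hd' hd0,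
      Finset.card_filter, Nat.cast_sum, Finset.mul_sum, Finset.mul_sum, Finset.mul_sum]
    refine Finset.sum_congr rfl fun x _ => ?_
    split_ifs
    · push_cast
      field_simp
    · simp
  rw [Finset.sum_congr rfl h1, ← Finset.mul_sum, Finset.sum_comm]
  have h2 : ∀ x : G, (∑ d ∈ (orderOf σ).divisors,
      (if x⁻¹ * g * x ∈ Subgroup.zpowers (σ ^ d) then ((μ d : ℤ) : ℂ) else 0)) =
      if Subgroup.zpowers (x⁻¹ * g * x) = Subgroup.zpowers σ then 1 else 0 := by
    intro x
    have h3 := congrArg (Int.cast (R := ℂ)) (moebius_sum σ (x⁻¹ * g * x))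
    push_cast at h3
    exact h3
  simp only [h2]
  rw [← Finset.sum_filter, Finset.sum_const, nsmul_eq_mul, mul_one]
  split_ifs with h
  · rw [count_div h]
    field_simp
  · rw [count_not h]
    simp

open Classical in
/-- `|D| |N| = |G| φ(n)` -/
theorem card_div (σ : G) :
    (Finset.univ.filter fun g : G => Div σ g).card * Nrm σ =
      Fintype.card G * Nat.totient (orderOf σ) := by
  have h1 : ∑ g : G, (Finset.univ.filter fun x : G =>
      Subgroup.zpowers (x⁻¹ * g * x) = Subgroup.zpowers σ).card =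
      (Finset.univ.filter fun g : G => Div σ g).card * Nrm σ := by
    rw [← Finset.sum_filter_add_sum_filter_not Finset.univ (fun g : G => Div σ g)]
    rw [Finset.sum_congr rfl (g := fun _ => Nrm σ) (fun g hg => count_div (Finset.mem_filter.1 hg).2),
      Finset.sum_congr rfl (s₁ := Finset.univ.filter fun g : G => ¬ Div σ g) (g := fun _ => 0)
        (fun g hg => count_not (Finset.mem_filter.1 hg).2)]
    simp
  rw [← h1]
  simp only [Finset.card_filter]
  rw [Finset.sum_comm]
  have h2 : ∀ x : G, (∑ g : G, if Subgroup.zpowers (x⁻¹ * g * x) = Subgroup.zpowers σ then 1 else 0) =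
      Nat.totient (orderOf σ) := by
    intro x
    rw [← Equiv.sum_comp (MulAut.conj x).toEquiv]
    have h3 : ∀ y : G, x⁻¹ * (MulAut.conj x).toEquiv y * x = y := by
      intro y
      show x⁻¹ * (x * y * x⁻¹) * x = y
      group
    simp only [h3]
    rw [← Finset.card_filter]
    have h4 : (Finset.univ.filter fun y : G => Subgroup.zpowers y = Subgroup.zpowers σ) =
        ((Finset.range (orderOf σ)).filter fun k => Nat.Coprime (orderOf σ) k).image
          fun k => σ ^ k := by
      ext y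
      rw [Finset.mem_filter, Finset.mem_image]
      constructor
      · rintro ⟨-, h⟩
        have hy : y ∈ Subgroup.zpowers σ := by
          rw [← h]
          exact Subgroup.mem_zpowers _
        rw [mem_zpowers_iff_mem_range_orderOf, Finset.mem_image] at hy
        obtain ⟨k, hk, rfl⟩ := hy
        exact ⟨k, Finset.mem_filter.2 ⟨hk, (gcd_iff σ k).2 h⟩, rfl⟩
      · rintro ⟨k, hk, rfl⟩
        exact ⟨Finset.mem_univ _, (gcd_iff σ k).1 (Finset.mem_filter.1 hk).2⟩
    rw [h4, Finset.card_image_of_injOn, Nat.totient_eq_card_coprime]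
    intro a ha b hb hab
    rw [Finset.mem_coe, Finset.mem_filter, Finset.mem_range] at ha hb
    exact pow_injOn_Iio_orderOf ha.1 hb.1 hab
  simp only [h2]
  rw [Finset.sum_const, smul_eq_mul, Finset.card_univ]

end Pool.Agent.Run7.h453.ST
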