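import Pool.Agent.Run7.h453.ST.Fix
import Pool.Agent.K4H74.ST.Inv

/-! The character induced from the trivial character. -/

set_option autoImplicit false
set_option linter.unusedSectionVars false

namespace Pool.Agent.Run7.h453.ST

open NumberField IntermediateField
open Pool.Agent.K4H74.ST (indChar)

variable {K L : Type} [Field K] [NumberField K] [Field L] [NumberField L] [Algebra K L]
  [IsGalois K L]

open Classical in
theorem indChar_one (F : IntermediateField K L) :
    indChar K F L (fun _ => 1) = perm F.fixingSubgroup := by
  funext g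
  unfold indChar perm
  rw [Nat.card_congr (fixingSubgroupEquiv F).toEquiv]
  congr 1
  rw [finsum_eq_sum_of_fintype, Finset.card_filter, Nat.cast_sum]
  refine Finset.sum_congr rfl fun x _ => ?_
  by_cases hx : x⁻¹ * g * x ∈ F.fixingSubgroup
  · rw [if_pos hx]
    set h : L ≃ₐ[F] L := fixingSubgroupEquiv F ⟨_, hx⟩ with hh
    have e1 : h.restrictScalars K = x⁻¹ * g * x := by
      ext y
      rfl
    rw [finsum_eq_single _ h]
    · rw [finsum_eq_single _ e1]
      · simp
      · intro h1 h2
        exact absurd rfl h2
    · intro a ha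
      refine @finsum_of_isEmpty _ _ _ ⟨fun h1 => ?_⟩ _
      apply ha
      ext y
      have := DFunLike.congr_fun (h1.trans e1.symm) y
      exact this
  · rw [if_neg hx]
    have h0 : ∀ h : L ≃ₐ[F] L, (∑ᶠ (_ : h.restrictScalars K = x⁻¹ * g * x), (1 : ℂ)) = 0 := by
      intro h
      refine @finsum_of_isEmpty _ _ _ ⟨fun h1 => ?_⟩ _
      apply hx
      rw [← h1]
      exact fun y => h.commutes y
    simp only [h0, finsum_zero]
    simp

end Pool.Agent.Run7.h453.ST
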