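import Pool.Agent.Run7.h453.ST.Ind
import Pool.Agent.Run7.h453.CX.Gen
import Pool.Agent.K4H74.SC.ArtL
import Pool.Agent.K4H74.SC.Sum
import Pool.Agent.Run7.h375.Euler
import Pool.Agent.Run7.h375.Zeta3

/-! The rotated law for class sums of Frobenius elements at `s = 0`. -/

set_option autoImplicit false
set_option linter.unusedSectionVars false

namespace Pool.Agent.Run7.h453.ST

open NumberField IntermediateField IsDedekindDomain Filter Topology Set
open Pool.Agent.K4H74 Pool.Agent.K4H74.ST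
open Pool.Agent.Run7.h453.CX Pool.Agent.W187.UR
open Pool.Agent.W189.ML (ser om)
open scoped ArithmeticFunction.Moebius

variable {K L : Type} [Field K] [NumberField K] [Field L] [NumberField L] [Algebra K L]

/-- the frequencies -/
noncomputable def lamI (K : Type) [Field K] [NumberField K]
    (x : HeightOneSpectrum (𝓞 K) × ℕ+) : ℝ :=
  (x.2 : ℕ) * Real.log (Ideal.absNorm x.1.asIdeal : ℕ)

/-- the coefficients -/
noncomputable def cI (f : (L ≃ₐ[K] L) → ℂ) (x : HeightOneSpectrum (𝓞 K) × ℕ+) : ℂ :=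
  SC.frobMean K L f x.1.asIdeal x.2 / (x.2 : ℕ)

theorem lamI_nonneg (x : HeightOneSpectrum (𝓞 K) × ℕ+) : 0 ≤ lamI K x := by
  unfold lamI
  have h := SC.two_le_absNorm x.1
  have : 0 ≤ Real.log (Ideal.absNorm x.1.asIdeal : ℕ) :=
    Real.log_nonneg (by exact_mod_cast (by omega : 1 ≤ Ideal.absNorm x.1.asIdeal))
  positivity

theorem logTerm_eq (f : (L ≃ₐ[K] L) → ℂ) (s : ℂ) (x : HeightOneSpectrum (𝓞 K) × ℕ+) :
    SC.logTerm K L f s x = cI f x * Complex.exp (-(s * lamI K x)) := by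
  have h := SC.two_le_absNorm x.1
  have h0 : ((Ideal.absNorm x.1.asIdeal : ℕ) : ℂ) ≠ 0 := by
    exact_mod_cast (by omega : Ideal.absNorm x.1.asIdeal ≠ 0)
  unfold SC.logTerm cI lamI
  rw [Complex.cpow_def_of_ne_zero h0, Complex.exp_neg, div_mul_eq_div_div, div_eq_mul_inv _
    (Complex.exp _)]
  congr 3
  rw [← Complex.ofReal_natCast, ← Complex.ofReal_log (Nat.cast_nonneg _)]
  push_cast
  ring

theorem cI_summable (f : (L ≃ₐ[K] L) → ℂ) {σ : ℝ} (hσ : 1 < σ) :
    Summable fun x => ‖cI f x‖ * Real.exp (-(σ * lamI K x)) := by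
  have h1 := (SC.logTerm_summable f (s := (σ : ℂ)) (by simpa using hσ)).norm
  refine h1.congr fun x => ?_
  rw [logTerm_eq, norm_mul, Complex.norm_exp]
  congr 2
  simp

/-- the sum -/
noncomputable def SS (f : (L ≃ₐ[K] L) → ℂ) (γ T : ℝ) : ℂ :=
  ∑' x, rterm (lamI K) (cI f) γ T x

theorem rterm_sum (f : (L ≃ₐ[K] L) → ℂ) (γ : ℝ) {T : ℝ} (hT : 0 < T) :
    Summable (rterm (lamI K) (cI f) γ T) :=
  (rterm_summable (lamI_nonneg) (by norm_num : (0 : ℝ) < 2) (cI_summable f (by norm_num)) γ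
    hT).of_norm

theorem countable_idx : Countable (HeightOneSpectrum (𝓞 K) × ℕ+) := by
  have h1 : Countable (HeightOneSpectrum (𝓞 K)) := by
    have h2 : Summable fun v : HeightOneSpectrum (𝓞 K) =>
        ((Ideal.absNorm v.asIdeal : ℕ) : ℝ) ^ (-(2 : ℝ)) := SC.summable_absNorm (by norm_num)
    have h3 := h2.countable_support
    rw [← Set.countable_univ_iff]
    refine h3.mono fun v _ => ?_
    rw [Function.mem_support]
    have h := SC.two_le_absNorm v
    have : (0 : ℝ) < (Ideal.absNorm v.asIdeal : ℕ) := by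
      exact_mod_cast (by omega : 0 < Ideal.absNorm v.asIdeal)
    positivity
  infer_instance

/-- the mean is linear -/
theorem frobMean_lin {ι : Type} (S : Finset ι) (a : ι → ℂ) (f : ι → (L ≃ₐ[K] L) → ℂ)
    (p : HeightOneSpectrum (𝓞 K)) (n : ℕ) :
    SC.frobMean K L (fun g => ∑ d ∈ S, a d * f d g) p.asIdeal n =
      ∑ d ∈ S, a d * SC.frobMean K L (f d) p.asIdeal n := by
  classical
  have hft : Fintype (L ≃ₐ[K] L) := Fintype.ofFinite _
  have := p.isPrime
  unfold SC.frobMean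
  rw [SC.frobSet_eq p.ne_bot n]
  simp only [finsum_mem_coe_finset]
  rw [Finset.sum_comm, Finset.sum_div]
  refine Finset.sum_congr rfl fun d _ => ?_
  rw [← Finset.mul_sum, mul_div_assoc]

theorem SS_lin {ι : Type} (S : Finset ι) (a : ι → ℂ) (f : ι → (L ≃ₐ[K] L) → ℂ) (γ : ℝ) {T : ℝ}
    (hT : 0 < T) :
    SS (fun g => ∑ d ∈ S, a d * f d g) γ T = ∑ d ∈ S, a d * SS (f d) γ T := by
  unfold SS
  simp only [← tsum_mul_left]
  rw [← Summable.tsum_finsetSum fun d _ => (rterm_sum (f d) γ hT).mul_left _]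
  refine tsum_congr fun x => ?_
  unfold rterm cI
  rw [frobMean_lin, Finset.sum_div, Finset.sum_mul, Finset.sum_mul]
  refine Finset.sum_congr rfl fun d _ => ?_
  ring

/-- **the law for a function on the Galois group** -/
theorem law_f (f : (L ≃ₐ[K] L) → ℂ) {Φ : ℂ → ℂ}
    (hmer : ∀ x ∈ Icc (0 : ℝ) 1, MeromorphicAt Φ (x : ℂ))
    (heq : ∀ s : ℂ, 1 < s.re → ∀ l : ℂ, HasSum (SC.logTerm K L f s) l → Φ s = Complex.exp l)
    {γ : ℝ} (hγ : Real.pi / 2 < γ) :
    ∃ (m : ℤ) (r : ℂ) (C T₀ : ℝ), meromorphicOrderAt Φ 0 = m ∧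
      Complex.exp r = meromorphicTrailingCoeffAt Φ 0 ∧
      ∀ T ≥ T₀, ‖-SS f γ T - (m * (Real.log T - Lam γ) - r)‖ ≤ C / T := by
  have := countable_idx (K := K)
  exact gen_law (lam := lamI K) (c := cI f) one_pos lamI_nonneg (fun σ hσ => cI_summable f hσ) hmer
    (fun w hw => by
      refine heq w hw _ ?_
      have h1 := (SC.logTerm_summable f hw).hasSum
      have h2 : (∑' x, SC.logTerm K L f w x) = cser (lamI K) (cI f) w := by
        unfold cser
        exact tsum_congr fun x => logTerm_eq f w x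
      rwa [h2] at h1) hγ

end Pool.Agent.Run7.h453.ST
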