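import Pool.Agent.Run7.h453.ST.Law
import Pool.Agent.N41.RM.Off2
import Pool.Agent.K4H74.SC.Lead

/-! The law for the Dedekind zeta functions of the intermediate fields at `s = 0`. -/

set_option autoImplicit false
set_option linter.unusedSectionVars false

namespace Pool.Agent.Run7.h453.ST

open NumberField IntermediateField IsDedekindDomain Filter Topology Set
open Pool.Agent.K4H74 Pool.Agent.K4H74.ST
open Pool.Agent.Run7.h453.CX Pool.Agent.W187.UR
open Pool.Agent.W189.ML (ser om)
open Pool.Agent.N41.RM (EG fq cq rot_scale order_of_lim)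
open scoped ArithmeticFunction.Moebius

variable {K L : Type} [Field K] [NumberField K] [Field L] [NumberField L] [Algebra K L]
  [IsGalois K L]

theorem frobMean_one (p : HeightOneSpectrum (𝓞 K)) (n : ℕ) :
    SC.frobMean K L (fun _ => 1) p.asIdeal n = 1 := by
  classical
  have hft : Fintype (L ≃ₐ[K] L) := Fintype.ofFinite _
  have := p.isPrime
  have h1 : (SC.frobSet K L p.asIdeal n).ncard ≠ 0 := by
    rw [SC.ncard_frob p.ne_bot n]
    exact mul_ne_zero SC.pr_ne SC.ram_ne
  unfold SC.frobMean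
  have h2 : (∑ᶠ x ∈ SC.frobSet K L p.asIdeal n, (1 : ℂ)) = ((SC.frobSet K L p.asIdeal n).ncard : ℂ) := by
    rw [SC.frobSet_eq p.ne_bot n, finsum_mem_coe_finset, Set.ncard_coe_finset, Finset.sum_const,
      nsmul_eq_mul, mul_one]
  rw [h2]
  exact div_self (by exact_mod_cast h1)

theorem eg_one (K : Type) [Field K] [NumberField K] :
    EG 0 (fun v : HeightOneSpectrum (𝓞 K) => ((Ideal.absNorm v.asIdeal : ℕ) : ℝ))
      (fun _ (_ : Fin 1) => (1 : ℂ)) where
  two_le := fun v => by exact_mod_cast SC.two_le_absNorm v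
  sum := fun σ hσ => SC.summable_absNorm hσ
  ha := fun v j => by simp
  real := fun v k => by simp

/-- the Dedekind zeta function -/
theorem log_zeta {s l : ℂ} (hs : 1 < s.re)
    (h : HasSum (SC.logTerm K L (fun _ => 1) s) l) : Complex.exp l = dedekindZeta K s := by
  have E := eg_one K
  have h1 := E.hasProd (w := s) (by simpa using hs)
  have h2 := Run7.h375.Euler.hasProd_zeta K hs
  have h3 : (fun v : HeightOneSpectrum (𝓞 K) => ∏ j : Fin 1,
      (1 - (1 : ℂ) * (((Ideal.absNorm v.asIdeal : ℕ) : ℝ) : ℂ) ^ (-s))⁻¹) =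
      fun w => (1 - (Run7.h375.Euler.nm w : ℂ) ^ (-s))⁻¹ := by
    funext v
    rw [Fin.prod_univ_one, one_mul]
    unfold Run7.h375.Euler.nm
    push_cast
    rfl
  rw [h3] at h1
  rw [h2.unique h1]
  congr 1
  let e : HeightOneSpectrum (𝓞 K) × ℕ ≃ HeightOneSpectrum (𝓞 K) × ℕ+ :=
    (Equiv.refl _).prodCongr Equiv.pnatEquivNat.symm
  have h4 := (Equiv.hasSum_iff e).mpr h
  unfold ser
  rw [← h4.tsum_eq]
  refine tsum_congr fun x => ?_
  obtain ⟨v, n⟩ := x
  show SC.logTerm K L (fun _ => 1) s (v, n.succPNat) = _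
  rw [logTerm_eq]
  unfold cI lamI cq fq
  rw [frobMean_one]
  simp

open Classical in
/-- the logarithm of the zeta function of an intermediate field -/
theorem log_zetaF (F : IntermediateField K L) {s l : ℂ} (hs : 1 < s.re)
    (h : HasSum (SC.logTerm K L (perm F.fixingSubgroup) s) l) : Complex.exp l = dedekindZeta F s := by
  have h1 : Summable (SC.logTerm F L (fun _ => 1) s) := SC.logTerm_summable _ hs
  have h2 := SC.hasSum_ind (K := K) h1.hasSum
  rw [indChar_one] at h2
  rw [h.unique h2]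
  exact log_zeta hs h1.hasSum

theorem unique_cont {f f' : ℂ → ℂ} (hf : ∀ z, MeromorphicAt f z) (hf' : ∀ z, MeromorphicAt f' z)
    (h : ∀ s : ℂ, 1 < s.re → f s = f' s) (z : ℂ) : f =ᶠ[𝓝[≠] z] f' := by
  have hm : MeromorphicOn (f - f') Set.univ := fun z _ => (hf z).sub (hf' z)
  have h0 : meromorphicOrderAt (f - f') z = ⊤ := by
    by_contra hcon
    refine hm.meromorphicOrderAt_ne_top_of_isPreconnected isPreconnected_univ
      (Set.mem_univ z) (Set.mem_univ 2) hcon ?_
    rw [meromorphicOrderAt_eq_top_iff]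
    have h2 : ∀ᶠ s in 𝓝[≠] (2 : ℂ), 1 < s.re :=
      (SK.re_nhds (by norm_num)).filter_mono nhdsWithin_le_nhds
    filter_upwards [h2] with s hs
    rw [Pi.sub_apply, h s hs, sub_self]
  rw [meromorphicOrderAt_eq_top_iff] at h0
  filter_upwards [h0] with s hs
  exact sub_eq_zero.mp hs

/-- the number `h R / w` of a number field -/
noncomputable def hRw (F : Type) [Field F] [NumberField F] : ℝ :=
  (classNumber F : ℝ) * Units.regulator F / (Units.torsionOrder F : ℝ)

theorem hRw_pos (F : Type) [Field F] [NumberField F] : 0 < hRw F := by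
  unfold hRw
  have h1 : (0 : ℝ) < classNumber F := by exact_mod_cast classNumber_pos F
  have h2 := Units.regulator_pos F
  have h3 : (0 : ℝ) < Units.torsionOrder F := by exact_mod_cast Units.torsionOrder_pos F
  positivity

theorem lead_zeta (F : Type) [Field F] [NumberField F] {Z : ℂ → ℂ} (hZ : ∀ s, MeromorphicAt Z s)
    (hZ1 : ∀ s : ℂ, 1 < s.re → Z s = dedekindZeta F s) :
    meromorphicOrderAt Z 0 = ((Units.rank F : ℤ) : WithTop ℤ) ∧
      meromorphicTrailingCoeffAt Z 0 = ((-(hRw F) : ℝ) : ℂ) := by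
  obtain ⟨Z', m', e', t'⟩ := Run7.h375.Zeta.zeta_zero F
  have h1 : Z =ᶠ[𝓝[≠] 0] Z' := unique_cont hZ m' (fun s hs => by rw [hZ1 s hs, e' s hs]) 0
  have hne : (((-(hRw F) : ℝ)) : ℂ) ≠ 0 := by
    exact_mod_cast (neg_neg_of_pos (hRw_pos F)).ne
  refine order_of_lim (hZ 0) hne ?_
  have e1 : -((classNumber F : ℂ) * (Units.regulator F : ℂ) / (Units.torsionOrder F : ℂ)) =
      (((-(hRw F) : ℝ)) : ℂ) := by
    unfold hRw
    push_cast
    ring
  rw [e1] at t'
  refine t'.congr' ?_
  filter_upwards [h1] with s hs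
  rw [hs, sub_zero, zpow_neg, zpow_natCast]
  ring

open Classical in
/-- **the law for the zeta function of an intermediate field** -/
theorem law_zeta (F : IntermediateField K L) {Z : ℂ → ℂ} (hZ : ∀ s, MeromorphicAt Z s)
    (hZ1 : ∀ s : ℂ, 1 < s.re → Z s = dedekindZeta F s) {γ : ℝ} (hγ : Real.pi / 2 < γ) :
    ∃ C T₀ : ℝ, ∀ T ≥ T₀, ‖-SS (K := K) (perm F.fixingSubgroup) γ T -
      (Units.rank F * (Real.log T - Lam γ) - (Real.log (hRw F) - Real.pi *
        ((∑ᶠ x ∈ Ioc (0 : ℝ) 1, (meromorphicOrderAt Z (x : ℂ)).untop₀ : ℤ) : ℝ) * Complex.I))‖ ≤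
      C / T := by
  have hcount := countable_idx (K := K)
  -- the coefficients are real
  have hreal : ∀ x : HeightOneSpectrum (𝓞 K) × ℕ+, cI (perm F.fixingSubgroup) x =
      ((cI (K := K) (perm F.fixingSubgroup) x).re : ℂ) := by
    intro x
    have hp := x.1.isPrime
    have hpr : ∀ g, perm F.fixingSubgroup g = ((((Nat.card F.fixingSubgroup : ℝ)⁻¹ *
        ((Finset.univ.filter fun z : L ≃ₐ[K] L => z⁻¹ * g * z ∈ F.fixingSubgroup).card : ℝ)) : ℝ)
        : ℂ) := by
      intro g
      unfold perm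
      push_cast
      rfl
    have h1 : ∃ r : ℝ, SC.frobMean K L (perm F.fixingSubgroup) x.1.asIdeal x.2 = r := by
      unfold SC.frobMean
      rw [SC.frobSet_eq x.1.ne_bot, finsum_mem_coe_finset]
      simp only [hpr]
      rw [← Complex.ofReal_sum, ← Complex.ofReal_natCast, ← Complex.ofReal_div]
      exact ⟨_, rfl⟩
    obtain ⟨r, hr⟩ := h1
    unfold cI
    rw [hr]
    have h2 : (r : ℂ) / ((x.2 : ℕ) : ℂ) = ((r / (x.2 : ℕ) : ℝ) : ℂ) := by push_cast; rfl
    rw [h2, Complex.ofReal_re]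
  obtain ⟨m, r₀, C, T₀, hm, hr, hi, h⟩ := rot_scale (A := 1) (lam := lamI K)
    (c := fun x => (cI (K := K) (perm F.fixingSubgroup) x).re) (Φ := Z) one_pos lamI_nonneg
    (fun σ hσ => by
      refine Summable.of_nonneg_of_le (fun x => by positivity) (fun x => ?_)
        (cI_summable (perm F.fixingSubgroup) hσ)
      exact mul_le_mul_of_nonneg_right (Complex.abs_re_le_norm _) (Real.exp_pos _).le)
    (fun x _ => hZ _) (fun w hw => by
      have h1 := (SC.logTerm_summable (K := K) (L := L) (perm F.fixingSubgroup) hw).hasSum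
      rw [hZ1 w hw, ← log_zetaF F hw h1]
      congr 1
      unfold ser
      refine tsum_congr fun x => ?_
      rw [logTerm_eq, hreal x]) hγ
  obtain ⟨h1, h2⟩ := lead_zeta F hZ hZ1
  rw [h1] at hm
  have hm' : m = (Units.rank F : ℤ) := by exact_mod_cast hm.symm
  rw [h2] at hr
  have hre : r₀.re = Real.log (hRw F) := by
    have h3 := congrArg norm hr
    rw [Complex.norm_exp, Complex.norm_real, Real.norm_eq_abs, abs_neg,
      abs_of_pos (hRw_pos F)] at h3
    rw [← h3, Real.log_exp]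
  have hr0 : r₀ = Real.log (hRw F) - Real.pi *
        ((∑ᶠ x ∈ Ioc (0 : ℝ) 1, (meromorphicOrderAt Z (x : ℂ)).untop₀ : ℤ) : ℝ) * Complex.I := by
    apply Complex.ext
    · rw [hre]
      simp
    · rw [hi]
      simp
  refine ⟨C, T₀, fun T hT => ?_⟩
  have h4 := h T hT
  have h5 : SS (K := K) (perm F.fixingSubgroup) γ T =
      cmean (lamI K) (fun x => (cI (K := K) (perm F.fixingSubgroup) x).re) γ T := by
    unfold SS cmean
    refine tsum_congr fun x => ?_
    unfold rterm
    rw [hreal x]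
  rw [h5, ← hr0]
  rw [hm'] at h4
  exact_mod_cast h4

end Pool.Agent.Run7.h453.ST
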